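import Pool.Agent.Helper60.BFT.Goals

/-!
# LIP and SEQ: the running sum over consecutive chosen elements
-/

set_option autoImplicit false

open Finset
open Pool.Agent.Helper90.Twin (sig sig_of_next sig_of_no_next)
open Pool.Agent.Helper60.BFT

namespace Pool.Agent.Helper64.BFT

/-- LIP -/
theorem lipg : LIPG := by
  intro s Y Y' hs hY hY' n
  have key : ∀ n, |(run s Y n).2| ≤ 1 ∧ |(run s Y' n).2| ≤ 1 ∧
      |(run s Y n).1 - (run s Y' n).1| + |(run s Y n).2 - (run s Y' n).2|
        ≤ 3 * ∑ i ∈ range n, |Y i - Y' i| := by
    intro n
    induction n with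
    | zero => simp [run]
    | succ n ih =>
      obtain ⟨h1, h2, h3⟩ := ih
      have hsn := hs n
      rw [Finset.sum_range_succ]
      simp only [run]
      set S := (run s Y n).1
      set g := (run s Y n).2
      set S' := (run s Y' n).1
      set g' := (run s Y' n).2
      rcases hY n with hy | hy <;> rcases hY' n with hy' | hy' <;> rw [hy, hy']
      · refine ⟨by simpa using h1, by simpa using h2, ?_⟩
        simpa using h3
      · refine ⟨by simpa using h1, by simpa using hsn, ?_⟩
        have e1 : |(0 : ℝ) - 1| = 1 := by norm_num
        have h4 : |s n * g'| ≤ 1 := by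
          rw [abs_mul]
          exact mul_le_one₀ hsn (abs_nonneg _) h2
        have h5 : |S + 0 * s n * g - (S' + 1 * s n * g')| ≤ |S - S'| + 1 := by
          have : S + 0 * s n * g - (S' + 1 * s n * g') = (S - S') - s n * g' := by ring
          rw [this]
          exact (abs_sub _ _).trans (by linarith)
        have h6 : |0 * s n + (1 - 0) * g - (1 * s n + (1 - 1) * g')| ≤ 2 := by
          have : 0 * s n + (1 - 0) * g - (1 * s n + (1 - 1) * g') = g - s n := by ring
          rw [this]
          exact (abs_sub _ _).trans (by linarith)
        rw [e1]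
        have := abs_nonneg (g - g')
        linarith
      · refine ⟨by simpa using hsn, by simpa using h2, ?_⟩
        have e1 : |(1 : ℝ) - 0| = 1 := by norm_num
        have h4 : |s n * g| ≤ 1 := by
          rw [abs_mul]
          exact mul_le_one₀ hsn (abs_nonneg _) h1
        have h5 : |S + 1 * s n * g - (S' + 0 * s n * g')| ≤ |S - S'| + 1 := by
          have : S + 1 * s n * g - (S' + 0 * s n * g') = (S - S') + s n * g := by ring
          rw [this]
          exact (abs_add_le _ _).trans (by linarith)
        have h6 : |1 * s n + (1 - 1) * g - (0 * s n + (1 - 0) * g')| ≤ 2 := by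
          have : 1 * s n + (1 - 1) * g - (0 * s n + (1 - 0) * g') = s n - g' := by ring
          rw [this]
          exact (abs_sub _ _).trans (by linarith)
        rw [e1]
        have := abs_nonneg (g - g')
        linarith
      · refine ⟨by simpa using hsn, by simpa using hsn, ?_⟩
        have h5 : |S + 1 * s n * g - (S' + 1 * s n * g')| ≤ |S - S'| + |g - g'| := by
          have : S + 1 * s n * g - (S' + 1 * s n * g') = (S - S') + s n * (g - g') := by ring
          rw [this]
          refine (abs_add_le _ _).trans ?_
          have : |s n * (g - g')| ≤ |g - g'| := by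
            rw [abs_mul]
            exact mul_le_of_le_one_left (abs_nonneg _) hsn
          linarith
        have h6 : 1 * s n + (1 - 1) * g - (1 * s n + (1 - 1) * g') = 0 := by ring
        rw [h6]
        simp only [sub_self, abs_zero, add_zero]
        linarith
  obtain ⟨-, -, h3⟩ := key n
  have := abs_nonneg ((run s Y n).2 - (run s Y' n).2)
  linarith

theorem abs_sig_le {X : ℕ → ℝ} (hX : ∀ k, X k = 0 ∨ X k = 1) (H t : ℕ) : |sig X H t| ≤ 1 := by
  classical
  by_cases h : ∃ i, 0 < i ∧ i ≤ H ∧ X (t + i) = 1
  · obtain ⟨h1, h2, h3⟩ := Nat.find_spec h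
    rw [sig_of_next (g := Nat.find h) h1 h2 h3]
    · rw [abs_pow, abs_neg, abs_one, one_pow]
    · intro i hi hig
      have := Nat.find_min h hig
      rcases hX (t + i) with h0 | h0
      · exact h0
      · exact absurd ⟨hi, by omega, h0⟩ this
  · push Not at h
    rw [sig_of_no_next]
    · simp
    · intro i hi hiH
      exact (hX (t + i)).resolve_right (h i hi hiH)

/-- SEQ -/
theorem seqg : SEQG := by
  intro X hX H N hH
  have hHp : (0 : ℝ) < H := by exact_mod_cast hH
  have key : ∀ N : ℕ,
      ((run (fun t => (-1 : ℝ) ^ t) X N).2 = 0 ∧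
        B2 X N - ∑ t ∈ range N, X t * sig X H t = 0) ∨
      (∃ t < N, X t = 1 ∧ (∀ i, t < i → i < N → X i = 0) ∧
        (run (fun t => (-1 : ℝ) ^ t) X N).2 = (-1 : ℝ) ^ t ∧
        |B2 X N - ∑ t ∈ range N, X t * sig X H t + sig X H t| ≤ t / H) := by
    intro N
    induction N with
    | zero => left; simp [run, B2]
    | succ N ih =>
      have eB : B2 X (N + 1) = B2 X N + X N * (-1 : ℝ) ^ N *
          (run (fun t => (-1 : ℝ) ^ t) X N).2 := rfl
      have eR : (run (fun t => (-1 : ℝ) ^ t) X (N + 1)).2
          = X N * (-1 : ℝ) ^ N + (1 - X N) * (run (fun t => (-1 : ℝ) ^ t) X N).2 := rfl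
      rw [eB, eR, Finset.sum_range_succ]
      rcases hX N with h0 | h1
      · rw [h0]
        rcases ih with ⟨h2, h3⟩ | ⟨t, ht, h2, h3, h4, h5⟩
        · left
          exact ⟨by rw [h2]; ring, by linear_combination h3⟩
        · right
          refine ⟨t, by omega, h2, ?_, by rw [h4]; ring, ?_⟩
          · intro i hi hiN
            rcases Nat.lt_or_ge i N with h | h
            · exact h3 i hi h
            · have : i = N := by omega
              rw [this, h0]
          · have e : B2 X N + 0 * (-1 : ℝ) ^ N * (run (fun t => (-1 : ℝ) ^ t) X N).2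
                - (∑ t ∈ range N, X t * sig X H t + 0 * sig X H N) + sig X H t
                = B2 X N - ∑ t ∈ range N, X t * sig X H t + sig X H t := by ring
            rw [e]
            exact h5
      · rw [h1]
        right
        refine ⟨N, by omega, h1, fun i hi hiN => by omega, by ring, ?_⟩
        rcases ih with ⟨h2, h3⟩ | ⟨t, ht, h2, h3, h4, h5⟩
        · have e : B2 X N + 1 * (-1 : ℝ) ^ N * (run (fun t => (-1 : ℝ) ^ t) X N).2
                - (∑ t ∈ range N, X t * sig X H t + 1 * sig X H N) + sig X H N
                = B2 X N - ∑ t ∈ range N, X t * sig X H t := by rw [h2]; ring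
          rw [e, h3, abs_zero]
          positivity
        · rw [h4]
          have e : B2 X N + 1 * (-1 : ℝ) ^ N * (-1 : ℝ) ^ t
                - (∑ t ∈ range N, X t * sig X H t + 1 * sig X H N) + sig X H N
                = (B2 X N - ∑ t ∈ range N, X t * sig X H t + sig X H t)
                  + ((-1 : ℝ) ^ (N + t) - sig X H t) := by
            rw [pow_add]; ring
          rw [e]
          have hpar : (-1 : ℝ) ^ (N + t) = (-1 : ℝ) ^ (N - t) := by
            have : N + t = (N - t) + 2 * t := by omega
            rw [this, pow_add, pow_mul]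
            norm_num
          have hNt : t + (N - t) = N := by omega
          by_cases hg : N - t ≤ H
          · have h6 : sig X H t = (-1 : ℝ) ^ (N - t) :=
              sig_of_next (by omega) hg (by rw [hNt]; exact h1)
                (fun i hi hi2 => h3 _ (by omega) (by omega))
            rw [hpar, h6, sub_self, add_zero]
            rw [h6] at h5
            refine h5.trans ?_
            gcongr
          · have h6 : sig X H t = 0 :=
              sig_of_no_next (fun i hi hi2 => h3 _ (by omega) (by omega))
            rw [h6, sub_zero]
            rw [h6] at h5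
            refine (abs_add_le _ _).trans ?_
            have h7 : |(-1 : ℝ) ^ (N + t)| = 1 := by rw [abs_pow, abs_neg, abs_one, one_pow]
            rw [h7]
            have h8 : ((t : ℝ) + H) / H ≤ (N : ℝ) / H := by
              apply div_le_div_of_nonneg_right _ hHp.le
              have : t + H ≤ N := by omega
              exact_mod_cast this
            rw [add_div, div_self hHp.ne'] at h8
            linarith
  rcases key N with ⟨-, h⟩ | ⟨t, ht, -, -, -, h⟩
  · rw [h, abs_zero]
    positivity
  · have h1 := abs_sig_le hX H t
    have h2 : |B2 X N - ∑ t ∈ range N, X t * sig X H t|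
        ≤ |B2 X N - ∑ t ∈ range N, X t * sig X H t + sig X H t| + |sig X H t| := by
      have := abs_sub (B2 X N - ∑ t ∈ range N, X t * sig X H t + sig X H t) (sig X H t)
      rwa [add_sub_cancel_right] at this
    have h3 : (t : ℝ) / H ≤ N / H := by
      gcongr
    linarith

end Pool.Agent.Helper64.BFT
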